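import Mathlib

/-!
# A cubic graph with a strict domination chain

The disjoint union of four connected cubic graphs on 16, 18, 6 and 6 vertices satisfies
`ir < γ < i < β₀ < Γ < IR` (the values are 13, 14, 15, 18, 19, 20).
-/

set_option autoImplicit false

namespace Pool.Agent.Results.MP_93f3b8_co.StrictChain

/-! ### Definitions -/

/-- `S` is dominating: every vertex lies in the closed neighbourhood of a member of `S`. -/
def IsDominating {V : Type*} (G : SimpleGraph V) (S : Finset V) : Prop :=
  ∀ w, ∃ v ∈ S, w = v ∨ G.Adj v w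

/-- `S` is independent: no two of its vertices are adjacent. -/
def IsIndependent {V : Type*} (G : SimpleGraph V) (S : Finset V) : Prop :=
  ∀ u ∈ S, ∀ v ∈ S, ¬ G.Adj u v

/-- `S` is irredundant: every `v ∈ S` has a private neighbour, i.e. a vertex of `N[v]` lying in no
`N[u]` with `u ∈ S`, `u ≠ v`. -/
def IsIrredundant {V : Type*} (G : SimpleGraph V) (S : Finset V) : Prop :=
  ∀ v ∈ S, ∃ w, (w = v ∨ G.Adj v w) ∧ ∀ u ∈ S, u ≠ v → ¬ (w = u ∨ G.Adj u w)

/-- The least size of a set with property `P`. -/
noncomputable def minSize {V : Type*} (P : Finset V → Prop) : ℕ :=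
  sInf {m | ∃ S, P S ∧ S.card = m}

/-- The largest size of a set with property `P`. -/
noncomputable def maxSize {V : Type*} (P : Finset V → Prop) : ℕ :=
  sSup {m | ∃ S, P S ∧ S.card = m}

/-- `ir(G)`: the least size of a maximal irredundant set. -/
noncomputable def ir {V : Type*} (G : SimpleGraph V) : ℕ := minSize (Maximal (IsIrredundant G))

/-- `γ(G)`: the least size of a dominating set. -/
noncomputable def gamma {V : Type*} (G : SimpleGraph V) : ℕ := minSize (IsDominating G)

/-- `i(G)`: the least size of a maximal independent set. -/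
noncomputable def iNum {V : Type*} (G : SimpleGraph V) : ℕ := minSize (Maximal (IsIndependent G))

/-- `β₀(G)`: the largest size of an independent set. -/
noncomputable def beta0 {V : Type*} (G : SimpleGraph V) : ℕ := maxSize (IsIndependent G)

/-- `Γ(G)`: the largest size of a minimal dominating set. -/
noncomputable def Gamma {V : Type*} (G : SimpleGraph V) : ℕ := maxSize (Minimal (IsDominating G))

/-- `IR(G)`: the largest size of an irredundant set. -/
noncomputable def IR {V : Type*} (G : SimpleGraph V) : ℕ := maxSize (IsIrredundant G)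

/-- `G` is cubic. -/
def IsCubic {V : Type*} (G : SimpleGraph V) : Prop := ∀ v, (G.neighborSet v).ncard = 3

/-! ### Disjoint unions -/

/-- The disjoint union of two graphs. -/
def union {V W : Type*} (G : SimpleGraph V) (H : SimpleGraph W) : SimpleGraph (V ⊕ W) where
  Adj
    | Sum.inl u, Sum.inl v => G.Adj u v
    | Sum.inr u, Sum.inr v => H.Adj u v
    | _, _ => False
  symm := ⟨by
    rintro (u | u) (v | v) h
    · exact G.adj_symm h
    · exact h
    · exact h
    · exact H.adj_symm h⟩
  loopless := ⟨by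
    rintro (u | u) h
    · exact G.irrefl h
    · exact H.irrefl h⟩

section Union

variable {V W : Type*} (G : SimpleGraph V) (H : SimpleGraph W)

lemma exists_disjSum (U : Finset (V ⊕ W)) : ∃ S T, U = Finset.disjSum S T :=
  ⟨U.toLeft, U.toRight, (Finset.toLeft_disjSum_toRight).symm⟩

lemma dominating_union (S : Finset V) (T : Finset W) :
    IsDominating (union G H) (S.disjSum T) ↔ IsDominating G S ∧ IsDominating H T := by
  constructor
  · intro h
    constructor
    · intro w
      obtain ⟨v, hv, h1⟩ := h (Sum.inl w)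
      rcases v with v | v
      · refine ⟨v, Finset.inl_mem_disjSum.1 hv, ?_⟩
        rcases h1 with h1 | h1
        · exact Or.inl (Sum.inl_injective h1)
        · exact Or.inr h1
      · rcases h1 with h1 | h1
        · exact absurd h1 (by simp)
        · exact absurd h1 (fun h => h)
    · intro w
      obtain ⟨v, hv, h1⟩ := h (Sum.inr w)
      rcases v with v | v
      · rcases h1 with h1 | h1
        · exact absurd h1 (by simp)
        · exact absurd h1 (fun h => h)
      · refine ⟨v, Finset.inr_mem_disjSum.1 hv, ?_⟩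
        rcases h1 with h1 | h1
        · exact Or.inl (Sum.inr_injective h1)
        · exact Or.inr h1
  · rintro ⟨h1, h2⟩ (w | w)
    · obtain ⟨v, hv, h⟩ := h1 w
      exact ⟨Sum.inl v, Finset.inl_mem_disjSum.2 hv, h.imp (fun h => by rw [h]) (fun h => h)⟩
    · obtain ⟨v, hv, h⟩ := h2 w
      exact ⟨Sum.inr v, Finset.inr_mem_disjSum.2 hv, h.imp (fun h => by rw [h]) (fun h => h)⟩

lemma independent_union (S : Finset V) (T : Finset W) :
    IsIndependent (union G H) (S.disjSum T) ↔ IsIndependent G S ∧ IsIndependent H T := by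
  constructor
  · intro h
    exact ⟨fun u hu v hv => h _ (Finset.inl_mem_disjSum.2 hu) _ (Finset.inl_mem_disjSum.2 hv),
      fun u hu v hv => h _ (Finset.inr_mem_disjSum.2 hu) _ (Finset.inr_mem_disjSum.2 hv)⟩
  · rintro ⟨h1, h2⟩ (u | u) hu (v | v) hv h
    · exact h1 u (Finset.inl_mem_disjSum.1 hu) v (Finset.inl_mem_disjSum.1 hv) h
    · exact h
    · exact h
    · exact h2 u (Finset.inr_mem_disjSum.1 hu) v (Finset.inr_mem_disjSum.1 hv) h

lemma irredundant_union (S : Finset V) (T : Finset W) :
    IsIrredundant (union G H) (S.disjSum T) ↔ IsIrredundant G S ∧ IsIrredundant H T := by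
  constructor
  · intro h
    constructor
    · intro v hv
      obtain ⟨w, hw, h1⟩ := h (Sum.inl v) (Finset.inl_mem_disjSum.2 hv)
      rcases w with w | w
      · refine ⟨w, hw.imp (fun h => Sum.inl_injective h) (fun h => h), ?_⟩
        intro u hu hne hc
        exact h1 (Sum.inl u) (Finset.inl_mem_disjSum.2 hu) (fun h => hne (Sum.inl_injective h))
          (hc.imp (fun h => by rw [h]) (fun h => h))
      · rcases hw with hw | hw
        · exact absurd hw (by simp)
        · exact absurd hw (fun h => h)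
    · intro v hv
      obtain ⟨w, hw, h1⟩ := h (Sum.inr v) (Finset.inr_mem_disjSum.2 hv)
      rcases w with w | w
      · rcases hw with hw | hw
        · exact absurd hw (by simp)
        · exact absurd hw (fun h => h)
      · refine ⟨w, hw.imp (fun h => Sum.inr_injective h) (fun h => h), ?_⟩
        intro u hu hne hc
        exact h1 (Sum.inr u) (Finset.inr_mem_disjSum.2 hu) (fun h => hne (Sum.inr_injective h))
          (hc.imp (fun h => by rw [h]) (fun h => h))
  · rintro ⟨h1, h2⟩ (v | v) hv
    · obtain ⟨w, hw, h⟩ := h1 v (Finset.inl_mem_disjSum.1 hv)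
      refine ⟨Sum.inl w, hw.imp (fun h => by rw [h]) (fun h => h), ?_⟩
      rintro (u | u) hu hne hc
      · refine h u (Finset.inl_mem_disjSum.1 hu) (fun h => hne (by rw [h])) ?_
        exact hc.imp (fun h => Sum.inl_injective h) (fun h => h)
      · rcases hc with hc | hc
        · exact absurd hc (by simp)
        · exact hc
    · obtain ⟨w, hw, h⟩ := h2 v (Finset.inr_mem_disjSum.1 hv)
      refine ⟨Sum.inr w, hw.imp (fun h => by rw [h]) (fun h => h), ?_⟩
      rintro (u | u) hu hne hc
      · rcases hc with hc | hc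
        · exact absurd hc (by simp)
        · exact hc
      · refine h u (Finset.inr_mem_disjSum.1 hu) (fun h => hne (by rw [h])) ?_
        exact hc.imp (fun h => Sum.inr_injective h) (fun h => h)

lemma disjSum_subset {S S' : Finset V} {T T' : Finset W} :
    S.disjSum T ⊆ S'.disjSum T' ↔ S ⊆ S' ∧ T ⊆ T' := by
  constructor
  · intro h
    exact ⟨fun x hx => Finset.inl_mem_disjSum.1 (h (Finset.inl_mem_disjSum.2 hx)),
      fun x hx => Finset.inr_mem_disjSum.1 (h (Finset.inr_mem_disjSum.2 hx))⟩
  · rintro ⟨h1, h2⟩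
    exact Finset.disjSum_mono h1 h2

variable {P : Finset V → Prop} {Q : Finset W → Prop} {R : Finset (V ⊕ W) → Prop}

lemma minimal_union (h : ∀ S T, R (S.disjSum T) ↔ P S ∧ Q T) (S : Finset V) (T : Finset W) :
    Minimal R (S.disjSum T) ↔ Minimal P S ∧ Minimal Q T := by
  constructor
  · rintro ⟨h1, h2⟩
    obtain ⟨hS, hT⟩ := (h S T).1 h1
    refine ⟨⟨hS, fun S' hS' hle => ?_⟩, ⟨hT, fun T' hT' hle => ?_⟩⟩
    · exact (disjSum_subset.1 (h2 ((h S' T).2 ⟨hS', hT⟩)
        (disjSum_subset.2 ⟨hle, subset_rfl⟩))).1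
    · exact (disjSum_subset.1 (h2 ((h S T').2 ⟨hS, hT'⟩)
        (disjSum_subset.2 ⟨subset_rfl, hle⟩))).2
  · rintro ⟨⟨hS, h1⟩, ⟨hT, h2⟩⟩
    refine ⟨(h S T).2 ⟨hS, hT⟩, fun U hU hle => ?_⟩
    obtain ⟨S', T', rfl⟩ := exists_disjSum U
    obtain ⟨hS', hT'⟩ := (h S' T').1 hU
    obtain ⟨l1, l2⟩ := disjSum_subset.1 hle
    exact disjSum_subset.2 ⟨h1 hS' l1, h2 hT' l2⟩

lemma maximal_union (h : ∀ S T, R (S.disjSum T) ↔ P S ∧ Q T) (S : Finset V) (T : Finset W) :
    Maximal R (S.disjSum T) ↔ Maximal P S ∧ Maximal Q T := by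
  constructor
  · rintro ⟨h1, h2⟩
    obtain ⟨hS, hT⟩ := (h S T).1 h1
    refine ⟨⟨hS, fun S' hS' hle => ?_⟩, ⟨hT, fun T' hT' hle => ?_⟩⟩
    · exact (disjSum_subset.1 (h2 ((h S' T).2 ⟨hS', hT⟩)
        (disjSum_subset.2 ⟨hle, subset_rfl⟩))).1
    · exact (disjSum_subset.1 (h2 ((h S T').2 ⟨hS, hT'⟩)
        (disjSum_subset.2 ⟨subset_rfl, hle⟩))).2
  · rintro ⟨⟨hS, h1⟩, ⟨hT, h2⟩⟩
    refine ⟨(h S T).2 ⟨hS, hT⟩, fun U hU hle => ?_⟩
    obtain ⟨S', T', rfl⟩ := exists_disjSum U
    obtain ⟨hS', hT'⟩ := (h S' T').1 hU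
    obtain ⟨l1, l2⟩ := disjSum_subset.1 hle
    exact disjSum_subset.2 ⟨h1 hS' l1, h2 hT' l2⟩

end Union

/-! ### One-sided bounds for the parameters -/

/-- `minSize P ≤ a`, in witness form. -/
def Le {V : Type*} (P : Finset V → Prop) (a : ℕ) : Prop := ∃ S, P S ∧ S.card ≤ a

/-- `a ≤ maxSize P`, in witness form. -/
def Ge {V : Type*} (P : Finset V → Prop) (a : ℕ) : Prop := ∃ S, P S ∧ a ≤ S.card

/-- Lower bound for all sizes. -/
def AllGe {V : Type*} (P : Finset V → Prop) (a : ℕ) : Prop := ∀ S, P S → a ≤ S.card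

/-- Upper bound for all sizes. -/
def AllLe {V : Type*} (P : Finset V → Prop) (a : ℕ) : Prop := ∀ S, P S → S.card ≤ a

section Bounds

variable {V W : Type*} {P : Finset V → Prop} {Q : Finset W → Prop} {R : Finset (V ⊕ W) → Prop}

lemma Le.union (h : ∀ S T, R (S.disjSum T) ↔ P S ∧ Q T) {a b : ℕ} (h1 : Le P a) (h2 : Le Q b) :
    Le R (a + b) := by
  obtain ⟨S, hS, hSc⟩ := h1
  obtain ⟨T, hT, hTc⟩ := h2
  exact ⟨S.disjSum T, (h S T).2 ⟨hS, hT⟩, by rw [Finset.card_disjSum]; omega⟩

lemma Ge.union (h : ∀ S T, R (S.disjSum T) ↔ P S ∧ Q T) {a b : ℕ} (h1 : Ge P a) (h2 : Ge Q b) :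
    Ge R (a + b) := by
  obtain ⟨S, hS, hSc⟩ := h1
  obtain ⟨T, hT, hTc⟩ := h2
  exact ⟨S.disjSum T, (h S T).2 ⟨hS, hT⟩, by rw [Finset.card_disjSum]; omega⟩

lemma AllGe.union (h : ∀ S T, R (S.disjSum T) ↔ P S ∧ Q T) {a b : ℕ} (h1 : AllGe P a)
    (h2 : AllGe Q b) : AllGe R (a + b) := by
  intro U hU
  obtain ⟨S, T, rfl⟩ := exists_disjSum U
  obtain ⟨hS, hT⟩ := (h S T).1 hU
  rw [Finset.card_disjSum]
  exact Nat.add_le_add (h1 S hS) (h2 T hT)

lemma AllLe.union (h : ∀ S T, R (S.disjSum T) ↔ P S ∧ Q T) {a b : ℕ} (h1 : AllLe P a)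
    (h2 : AllLe Q b) : AllLe R (a + b) := by
  intro U hU
  obtain ⟨S, T, rfl⟩ := exists_disjSum U
  obtain ⟨hS, hT⟩ := (h S T).1 hU
  rw [Finset.card_disjSum]
  exact Nat.add_le_add (h1 S hS) (h2 T hT)

lemma minSize_le {a : ℕ} (h : Le P a) : minSize P ≤ a := by
  obtain ⟨S, hS, hc⟩ := h
  have h1 : S.card ∈ {m | ∃ S, P S ∧ S.card = m} := ⟨S, hS, rfl⟩
  exact (Nat.sInf_le h1).trans hc

lemma le_minSize {a b : ℕ} (h : AllGe P a) (h' : Le P b) : a ≤ minSize P := by
  obtain ⟨S, hS, _⟩ := h'
  have hne : {m | ∃ S, P S ∧ S.card = m}.Nonempty := ⟨_, S, hS, rfl⟩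
  obtain ⟨T, hT, hc⟩ := Nat.sInf_mem hne
  unfold minSize
  rw [← hc]
  exact h T hT

lemma maxSize_le {a b : ℕ} (h : AllLe P a) (h' : Ge P b) : maxSize P ≤ a := by
  obtain ⟨S, hS, _⟩ := h'
  have hne : {m | ∃ S, P S ∧ S.card = m}.Nonempty := ⟨_, S, hS, rfl⟩
  refine csSup_le hne ?_
  rintro m ⟨T, hT, rfl⟩
  exact h T hT

lemma le_maxSize [Fintype V] {a : ℕ} (h : Ge P a) : a ≤ maxSize P := by
  obtain ⟨S, hS, hc⟩ := h
  have hb : BddAbove {m | ∃ S, P S ∧ S.card = m} := by
    refine ⟨Fintype.card V, ?_⟩
    rintro m ⟨T, _, rfl⟩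
    exact Finset.card_le_univ T
  exact hc.trans (le_csSup hb ⟨S, hS, rfl⟩)

end Bounds

/-! ### General facts -/

section General

variable {V : Type*} (G : SimpleGraph V)

lemma irr_mono {S T : Finset V} (hST : S ⊆ T) (hT : IsIrredundant G T) : IsIrredundant G S := by
  intro s hs
  obtain ⟨w, hw, h⟩ := hT s (hST hs)
  exact ⟨w, hw, fun t ht => h t (hST ht)⟩

lemma irr_of_minimal {S : Finset V} (h : Minimal (IsDominating G) S) : IsIrredundant G S := by
  classical
  intro v hv
  by_contra hc
  push Not at hc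
  have h1 : IsDominating G (S.erase v) := by
    intro w
    obtain ⟨u, hu, huw⟩ := h.1 w
    by_cases huv : u = v
    · subst huv
      obtain ⟨u', hu', hne, h3⟩ := hc w huw
      exact ⟨u', Finset.mem_erase.2 ⟨hne, hu'⟩, h3⟩
    · exact ⟨u, Finset.mem_erase.2 ⟨huv, hu⟩, huw⟩
  exact Finset.notMem_erase v S (h.2 h1 (Finset.erase_subset v S) hv)

lemma irr_of_independent {S : Finset V} (h : IsIndependent G S) : IsIrredundant G S := by
  intro v hv
  refine ⟨v, Or.inl rfl, ?_⟩
  rintro u hu hne (h1 | h1)
  · exact hne h1.symm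
  · exact h u hu v hv h1

lemma dominating_of_maximal {S : Finset V} (h : Maximal (IsIndependent G) S) :
    IsDominating G S := by
  classical
  intro w
  by_contra hc
  push Not at hc
  have hwS : w ∉ S := fun hw => (hc w hw).1 rfl
  have h1 : IsIndependent G (insert w S) := by
    intro u hu v hv huv
    rcases Finset.mem_insert.1 hu with hu1 | hu1
    · rcases Finset.mem_insert.1 hv with hv1 | hv1
      · rw [hu1, hv1] at huv
        exact G.irrefl huv
      · rw [hu1] at huv
        exact (hc v hv1).2 huv.symm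
    · rcases Finset.mem_insert.1 hv with hv1 | hv1
      · rw [hv1] at huv
        exact (hc u hu1).2 huv
      · exact h.1 u hu1 v hv1 huv
  exact hwS (h.2 h1 (Finset.subset_insert w S) (Finset.mem_insert_self w S))

lemma exists_minimal {S : Finset V} (h : IsDominating G S) :
    ∃ T ⊆ S, Minimal (IsDominating G) T := by
  classical
  obtain ⟨T, hT, hmin⟩ := Finset.exists_minimal
    (s := S.powerset.filter (IsDominating G)) ⟨S, Finset.mem_filter.2 ⟨Finset.mem_powerset_self S, h⟩⟩
  rw [Finset.mem_filter, Finset.mem_powerset] at hT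
  refine ⟨T, hT.1, hT.2, ?_⟩
  intro U hU hUT
  exact hmin (Finset.mem_filter.2 ⟨Finset.mem_powerset.2 (hUT.trans hT.1), hU⟩) hUT

end General

/-! ### Enumeration of all irredundant sets with bit masks -/

/-- All masks of the list meet `u`. -/
noncomputable def allMeet (u : ℕ) (L : List ℕ) : Bool :=
  List.rec true (fun x _ ih => cond (Nat.beq (Nat.land x u) 0) false ih) L

lemma allMeet_iff (u : ℕ) (L : List ℕ) : allMeet u L = true ↔ ∀ x ∈ L, Nat.land x u ≠ 0 := by
  induction L with
  | nil => simp [allMeet]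
  | cons x L ih =>
    have : allMeet u (x :: L) = cond (Nat.beq (Nat.land x u) 0) false (allMeet u L) := rfl
    rw [this, List.forall_mem_cons]
    cases hb : Nat.beq (Nat.land x u) 0
    · rw [cond_false, ih]
      have : Nat.land x u ≠ 0 := by
        intro h
        rw [h] at hb
        exact absurd hb (by decide)
      exact ⟨fun h => ⟨this, h⟩, fun h => h.2⟩
    · rw [cond_true]
      have := Nat.eq_of_beq_eq_true hb
      exact ⟨fun h => absurd h (by decide), fun h => absurd this h.1⟩

/-- The test applied to every irredundant set: if it is dominating then its size lies between `g`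
and `Ga`, and is at least `i` if it is moreover independent; if it is independent its size is at
most `b`. -/
noncomputable def leaf (full g Ga b i c1 : ℕ) (ind : Bool) (k : ℕ) : Bool :=
  and (cond (Nat.beq (Nat.land full c1) full)
    (and (Nat.ble g k) (and (Nat.ble k Ga) (cond ind (Nat.ble i k) true))) true)
    (cond ind (Nat.ble k b) true)

/-- The enumeration: the list contains the remaining vertices as pairs (bit, closed neighbourhood);
`L` the closed neighbourhoods of the chosen vertices, `c1`, `c2` the masks of the vertices covered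
at least once, at least twice. -/
noncomputable def run (full g Ga b i : ℕ) (l : List (ℕ × ℕ)) :
    List ℕ → ℕ → ℕ → Bool → ℕ → Bool :=
  List.rec (fun _ c1 _ ind k => leaf full g Ga b i c1 ind k)
    (fun p _ ih L c1 c2 ind k => and (ih L c1 c2 ind k)
      (cond (allMeet (Nat.xor (Nat.lor c1 p.2) (Nat.lor c2 (Nat.land c1 p.2))) (p.2 :: L))
        (ih (p.2 :: L) (Nat.lor c1 p.2) (Nat.lor c2 (Nat.land c1 p.2))
          (cond (Nat.beq (Nat.land c1 p.1) 0) ind false) (Nat.succ k)) true)) l

section Enum

variable {n : ℕ} (G : SimpleGraph (Fin n)) (N : List ℕ)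

/-- The masks describe the closed neighbourhoods. -/
def Good : Prop := ∀ v w : Fin n, (N.getD v.1 0).testBit w.1 = true ↔ (w = v ∨ G.Adj v w)

/-- The data of a list of vertices. -/
def data (l : List (Fin n)) : List (ℕ × ℕ) := l.map (fun v => (2 ^ v.1, N.getD v.1 0))

/-- The invariant. -/
structure Inv (S : Finset (Fin n)) (L : List ℕ) (c1 c2 : ℕ) (ind : Bool) (k : ℕ) : Prop where
  hL : ∀ x ∈ L, ∃ v ∈ S, x = N.getD v.1 0
  h1 : ∀ w : Fin n, c1.testBit w.1 = true ↔ ∃ v ∈ S, w = v ∨ G.Adj v w
  h2 : ∀ w : Fin n, c2.testBit w.1 = true →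
    ∃ v ∈ S, ∃ v' ∈ S, v ≠ v' ∧ (w = v ∨ G.Adj v w) ∧ (w = v' ∨ G.Adj v' w)
  hind : IsIndependent G S → ind = true
  hk : k = S.card

variable {G N}

lemma meet (hN : Good G N) {S : Finset (Fin n)} {L : List ℕ} {c1 c2 : ℕ} {ind : Bool} {k : ℕ}
    (hI : Inv G N S L c1 c2 ind k) (hS : IsIrredundant G S) :
    allMeet (Nat.xor c1 c2) L = true := by
  rw [allMeet_iff]
  intro x hx h0
  obtain ⟨v, hv, rfl⟩ := hI.hL x hx
  obtain ⟨w, hw, h⟩ := hS v hv
  have t1 : (N.getD v.1 0).testBit w.1 = true := (hN v w).2 hw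
  have t2 : c1.testBit w.1 = true := (hI.h1 w).2 ⟨v, hv, hw⟩
  have t3 : c2.testBit w.1 = false := by
    rw [← Bool.not_eq_true]
    intro hc
    obtain ⟨a, ha, b, hb, hab, ha', hb'⟩ := hI.h2 w hc
    have ea : a = v := by
      by_contra hne
      exact h a ha hne ha'
    have eb : b = v := by
      by_contra hne
      exact h b hb hne hb'
    exact hab (ea.trans eb.symm)
  have t4 : (Nat.land (N.getD v.1 0) (Nat.xor c1 c2)).testBit w.1 = true := by
    change (N.getD v.1 0 &&& (c1 ^^^ c2)).testBit w.1 = true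
    rw [Nat.testBit_and, Nat.testBit_xor, t1, t2, t3]
    rfl
  rw [h0, Nat.zero_testBit] at t4
  exact absurd t4 (by decide)

lemma run_sound (hN : Good G N) {full g Ga b i : ℕ} (hfull : ∀ j, full.testBit j = true → j < n)
    (l : List (Fin n)) :
    ∀ (S : Finset (Fin n)) (L : List ℕ) (c1 c2 : ℕ) (ind : Bool) (k : ℕ),
      Inv G N S L c1 c2 ind k → run full g Ga b i (data N l) L c1 c2 ind k = true →
      ∀ T : Finset (Fin n), (∀ v ∈ T, v ∈ l) → Disjoint S T → IsIrredundant G (S ∪ T) →
        (IsDominating G (S ∪ T) → g ≤ (S ∪ T).card ∧ (S ∪ T).card ≤ Ga ∧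
          (IsIndependent G (S ∪ T) → i ≤ (S ∪ T).card)) ∧
        (IsIndependent G (S ∪ T) → (S ∪ T).card ≤ b) := by
  classical
  induction l with
  | nil =>
    intro S L c1 c2 ind k hI hrun T hT _ _
    have hT0 : T = ∅ := Finset.eq_empty_of_forall_notMem
      (fun v hv => absurd (hT v hv) List.not_mem_nil)
    subst hT0
    rw [Finset.union_empty]
    have hl : leaf full g Ga b i c1 ind k = true := hrun
    unfold leaf at hl
    rw [Bool.and_eq_true] at hl
    obtain ⟨ha, hb⟩ := hl
    constructor
    · intro hd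
      have hbq : Nat.beq (Nat.land full c1) full = true := by
        have : Nat.land full c1 = full := by
          apply Nat.eq_of_testBit_eq
          intro j
          change (full &&& c1).testBit j = full.testBit j
          rw [Nat.testBit_and]
          cases hj : full.testBit j
          · rfl
          · rw [Bool.true_and]
            exact (hI.h1 ⟨j, hfull j hj⟩).2 (hd ⟨j, hfull j hj⟩)
        rw [this]
        exact Nat.beq_refl full
      rw [hbq, cond_true, Bool.and_eq_true, Bool.and_eq_true] at ha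
      obtain ⟨a1, a2, a3⟩ := ha
      rw [← hI.hk]
      refine ⟨Nat.le_of_ble_eq_true a1, Nat.le_of_ble_eq_true a2, fun hi => ?_⟩
      rw [hI.hind hi, cond_true] at a3
      exact Nat.le_of_ble_eq_true a3
    · intro hi
      rw [hI.hind hi, cond_true] at hb
      rw [← hI.hk]
      exact Nat.le_of_ble_eq_true hb
  | cons v l ih =>
    intro S L c1 c2 ind k hI hrun T hT hdisj hirr
    set m := N.getD v.1 0 with hm
    have hrun' : and (run full g Ga b i (data N l) L c1 c2 ind k)
        (cond (allMeet (Nat.xor (Nat.lor c1 m) (Nat.lor c2 (Nat.land c1 m))) (m :: L))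
        (run full g Ga b i (data N l) (m :: L) (Nat.lor c1 m) (Nat.lor c2 (Nat.land c1 m))
          (cond (Nat.beq (Nat.land c1 (2 ^ v.1)) 0) ind false) (Nat.succ k)) true) = true := hrun
    rw [Bool.and_eq_true] at hrun'
    obtain ⟨r1, r2⟩ := hrun'
    by_cases hv : v ∈ T
    · have hvS : v ∉ S := fun h => (Finset.disjoint_left.1 hdisj) h hv
      have hI' : Inv G N (insert v S) (m :: L) (Nat.lor c1 m) (Nat.lor c2 (Nat.land c1 m))
          (cond (Nat.beq (Nat.land c1 (2 ^ v.1)) 0) ind false) (Nat.succ k) := by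
        constructor
        · intro x hx
          rcases List.mem_cons.1 hx with rfl | hx
          · exact ⟨v, Finset.mem_insert_self v S, rfl⟩
          · obtain ⟨u, hu, h⟩ := hI.hL x hx
            exact ⟨u, Finset.mem_insert_of_mem hu, h⟩
        · intro w
          change (c1 ||| m).testBit w.1 = true ↔ _
          rw [Nat.testBit_or, Bool.or_eq_true, hI.h1 w, hm, hN v w]
          constructor
          · rintro (⟨u, hu, h⟩ | h)
            · exact ⟨u, Finset.mem_insert_of_mem hu, h⟩
            · exact ⟨v, Finset.mem_insert_self v S, h⟩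
          · rintro ⟨u, hu, h⟩
            rcases Finset.mem_insert.1 hu with rfl | hu
            · exact Or.inr h
            · exact Or.inl ⟨u, hu, h⟩
        · intro w hw
          change (c2 ||| (c1 &&& m)).testBit w.1 = true at hw
          rw [Nat.testBit_or, Nat.testBit_and, Bool.or_eq_true, Bool.and_eq_true, hm, hN v w,
            hI.h1 w] at hw
          rcases hw with hw | ⟨⟨u, hu, h⟩, hw⟩
          · obtain ⟨a, ha, b, hb, h⟩ := hI.h2 w hw
            exact ⟨a, Finset.mem_insert_of_mem ha, b, Finset.mem_insert_of_mem hb, h⟩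
          · exact ⟨u, Finset.mem_insert_of_mem hu, v, Finset.mem_insert_self v S,
              fun h => hvS (h ▸ hu), h, hw⟩
        · intro hi
          have hi' : IsIndependent G S := fun a ha b hb =>
            hi a (Finset.mem_insert_of_mem ha) b (Finset.mem_insert_of_mem hb)
          have hz : Nat.land c1 (2 ^ v.1) = 0 := by
            apply Nat.eq_of_testBit_eq
            intro j
            change (c1 &&& 2 ^ v.1).testBit j = (0 : ℕ).testBit j
            rw [Nat.testBit_and, Nat.testBit_two_pow, Nat.zero_testBit]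
            by_cases hj : v.1 = j
            · subst hj
              rw [decide_eq_true rfl, Bool.and_true, ← Bool.not_eq_true, hI.h1 v]
              rintro ⟨u, hu, h | h⟩
              · exact hvS (h ▸ hu)
              · exact hi u (Finset.mem_insert_of_mem hu) v (Finset.mem_insert_self v S) h
            · rw [decide_eq_false hj, Bool.and_false]
          rw [hz]
          change cond true ind false = true
          exact hI.hind hi'
        · rw [Finset.card_insert_of_notMem hvS, hI.hk]
      have hirr' : IsIrredundant G (insert v S) := by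
        refine irr_mono G ?_ hirr
        intro x hx
        rcases Finset.mem_insert.1 hx with rfl | hx
        · exact Finset.mem_union_right S hv
        · exact Finset.mem_union_left T hx
      rw [meet hN hI' hirr', cond_true] at r2
      have heq : insert v S ∪ T.erase v = S ∪ T := by
        ext x
        rw [Finset.mem_union, Finset.mem_union, Finset.mem_insert, Finset.mem_erase]
        constructor
        · rintro ((rfl | h) | ⟨_, h⟩)
          · exact Or.inr hv
          · exact Or.inl h
          · exact Or.inr h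
        · rintro (h | h)
          · exact Or.inl (Or.inr h)
          · by_cases hxv : x = v
            · exact Or.inl (Or.inl hxv)
            · exact Or.inr ⟨hxv, h⟩
      have := ih (insert v S) (m :: L) _ _ _ _ hI' r2 (T.erase v) ?_ ?_ (by rw [heq]; exact hirr)
      · rw [heq] at this
        exact this
      · intro x hx
        obtain ⟨h1, h2⟩ := Finset.mem_erase.1 hx
        exact (List.mem_cons.1 (hT x h2)).resolve_left h1
      · rw [Finset.disjoint_left]
        intro x hx hx'
        obtain ⟨h1, h2⟩ := Finset.mem_erase.1 hx'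
        rcases Finset.mem_insert.1 hx with h | h
        · exact h1 h
        · exact (Finset.disjoint_left.1 hdisj) h h2
    · exact ih S L c1 c2 ind k hI r1 T
        (fun x hx => (List.mem_cons.1 (hT x hx)).resolve_left (fun h => hv (h ▸ hx))) hdisj hirr

lemma enum (hN : Good G N) {full g Ga b i : ℕ} (hfull : ∀ j, full.testBit j = true → j < n)
    (hrun : run full g Ga b i (data N (List.finRange n)) [] 0 0 true 0 = true)
    (S : Finset (Fin n)) (hS : IsIrredundant G S) :
    (IsDominating G S → g ≤ S.card ∧ S.card ≤ Ga ∧ (IsIndependent G S → i ≤ S.card)) ∧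
      (IsIndependent G S → S.card ≤ b) := by
  have hI : Inv G N ∅ [] 0 0 true 0 := by
    constructor
    · intro x hx
      exact absurd hx List.not_mem_nil
    · intro w
      rw [Nat.zero_testBit]
      constructor
      · intro h
        exact absurd h (by decide)
      · rintro ⟨v, hv, _⟩
        exact absurd hv (Finset.notMem_empty v)
    · intro w h
      rw [Nat.zero_testBit] at h
      exact absurd h (by decide)
    · intro _
      rfl
    · rfl
  have := run_sound hN hfull (List.finRange n) ∅ [] 0 0 true 0 hI hrun S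
    (fun v _ => List.mem_finRange v) (Finset.disjoint_empty_left S) (by rwa [Finset.empty_union])
  rwa [Finset.empty_union] at this

/-- All the exhaustive bounds. -/
lemma bounds (hN : Good G N) {full g Ga b i : ℕ} (hfull : ∀ j, full.testBit j = true → j < n)
    (hrun : run full g Ga b i (data N (List.finRange n)) [] 0 0 true 0 = true) :
    AllGe (IsDominating G) g ∧ AllLe (Minimal (IsDominating G)) Ga ∧
      AllLe (IsIndependent G) b ∧ AllGe (Maximal (IsIndependent G)) i := by
  refine ⟨?_, ?_, ?_, ?_⟩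
  · intro S hS
    obtain ⟨T, hTS, hT⟩ := exists_minimal G hS
    exact (((enum hN hfull hrun T (irr_of_minimal G hT)).1 hT.1).1).trans
      (Finset.card_le_card hTS)
  · intro S hS
    exact ((enum hN hfull hrun S (irr_of_minimal G hS)).1 hS.1).2.1
  · intro S hS
    exact (enum hN hfull hrun S (irr_of_independent G hS)).2 hS
  · intro S hS
    exact ((enum hN hfull hrun S (irr_of_independent G hS.1)).1
      (dominating_of_maximal G hS)).2.2 hS.1

end Enum

/-! ### The four graphs -/

/-- The graph given by a list of bit masks. -/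
def ofMasks {n : ℕ} (N : List ℕ) : SimpleGraph (Fin n) :=
  SimpleGraph.fromRel (fun a b => (N.getD a.1 0).testBit b.1 = true)

instance {n : ℕ} (N : List ℕ) : DecidableRel (ofMasks (n := n) N).Adj := by
  intro a b
  unfold ofMasks
  rw [SimpleGraph.fromRel_adj]
  infer_instance

instance {n : ℕ} (N : List ℕ) (S : Finset (Fin n)) : Decidable (IsDominating (ofMasks N) S) := by
  unfold IsDominating
  infer_instance

instance {n : ℕ} (N : List ℕ) (S : Finset (Fin n)) : Decidable (IsIndependent (ofMasks N) S) := by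
  unfold IsIndependent
  infer_instance

instance {n : ℕ} (N : List ℕ) (S : Finset (Fin n)) : Decidable (IsIrredundant (ofMasks N) S) := by
  unfold IsIrredundant
  infer_instance

lemma maximal_irr {n : ℕ} {H : SimpleGraph (Fin n)} {S : Finset (Fin n)} (hS : IsIrredundant H S)
    (h : ∀ v, v ∉ S → ¬ IsIrredundant H (insert v S)) : Maximal (IsIrredundant H) S := by
  refine ⟨hS, ?_⟩
  intro T hT hST x hx
  by_contra hxS
  exact h x hxS (irr_mono H (Finset.insert_subset hx hST) hT)

lemma maximal_ind {n : ℕ} {H : SimpleGraph (Fin n)} {S : Finset (Fin n)} (hS : IsIndependent H S)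
    (h : IsDominating H S) : Maximal (IsIndependent H) S := by
  refine ⟨hS, ?_⟩
  intro T hT hST x hx
  by_contra hxS
  obtain ⟨v, hv, h1 | h1⟩ := h x
  · exact hxS (h1 ▸ hv)
  · exact hT v (hST hv) x hx h1

lemma minimal_dom {n : ℕ} {H : SimpleGraph (Fin n)} {S : Finset (Fin n)} (hS : IsDominating H S)
    (h : IsIrredundant H S) : Minimal (IsDominating H) S := by
  refine ⟨hS, ?_⟩
  intro T hT hTS x hx
  by_contra hxT
  obtain ⟨w, _, hw⟩ := h x hx
  obtain ⟨v, hv, hvw⟩ := hT w
  exact hw v (hTS hv) (fun h => hxT (h ▸ hv)) hvw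

lemma full_lt (n : ℕ) (j : ℕ) (h : (2 ^ n - 1).testBit j = true) : j < n := by
  rw [Nat.testBit_two_pow_sub_one] at h
  exact of_decide_eq_true h

/-- All the bounds needed for one graph. -/
structure Data {V : Type*} (G : SimpleGraph V) (r g i b Ga I : ℕ) : Prop where
  r_le : Le (Maximal (IsIrredundant G)) r
  g_le : Le (IsDominating G) g
  g_ge : AllGe (IsDominating G) g
  i_le : Le (Maximal (IsIndependent G)) i
  i_ge : AllGe (Maximal (IsIndependent G)) i
  b_ge : Ge (IsIndependent G) b
  b_le : AllLe (IsIndependent G) b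
  G_ge : Ge (Minimal (IsDominating G)) Ga
  G_le : AllLe (Minimal (IsDominating G)) Ga
  I_ge : Ge (IsIrredundant G) I
  cubic : IsCubic G

lemma Data.add {V W : Type*} {G : SimpleGraph V} {H : SimpleGraph W} {r g i b Ga I : ℕ}
    {r' g' i' b' Ga' I' : ℕ} (h : Data G r g i b Ga I) (h' : Data H r' g' i' b' Ga' I') :
    Data (union G H) (r + r') (g + g') (i + i') (b + b') (Ga + Ga') (I + I') := by
  have hd := dominating_union G H
  have hi := independent_union G H
  have hr := irredundant_union G H
  refine ⟨h.r_le.union (maximal_union hr) h'.r_le, h.g_le.union hd h'.g_le,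
    h.g_ge.union hd h'.g_ge, h.i_le.union (maximal_union hi) h'.i_le,
    h.i_ge.union (maximal_union hi) h'.i_ge, h.b_ge.union hi h'.b_ge, h.b_le.union hi h'.b_le,
    h.G_ge.union (minimal_union hd) h'.G_ge, h.G_le.union (minimal_union hd) h'.G_le,
    h.I_ge.union hr h'.I_ge, ?_⟩
  rintro (v | v)
  · have : (union G H).neighborSet (Sum.inl v) = Sum.inl '' G.neighborSet v := by
      ext (w | w)
      · constructor
        · intro hw
          exact ⟨w, hw, rfl⟩
        · rintro ⟨w', hw', h⟩
          rw [← Sum.inl_injective h]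
          exact hw'
      · constructor
        · intro hw
          exact absurd hw (fun h => h)
        · rintro ⟨w', _, h⟩
          exact absurd h (by simp)
    rw [this, Set.ncard_image_of_injective _ Sum.inl_injective]
    exact h.cubic v
  · have : (union G H).neighborSet (Sum.inr v) = Sum.inr '' H.neighborSet v := by
      ext (w | w)
      · constructor
        · intro hw
          exact absurd hw (fun h => h)
        · rintro ⟨w', _, h⟩
          exact absurd h (by simp)
      · constructor
        · intro hw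
          exact ⟨w, hw, rfl⟩
        · rintro ⟨w', hw', h⟩
          rw [← Sum.inr_injective h]
          exact hw'
    rw [this, Set.ncard_image_of_injective _ Sum.inr_injective]
    exact h'.cubic v

lemma cubic_of {n : ℕ} (N : List ℕ)
    (h : ∀ v : Fin n, (Finset.univ.filter (fun w => (ofMasks (n := n) N).Adj v w)).card = 3) :
    IsCubic (ofMasks (n := n) N) := by
  intro v
  rw [← h v, ← Set.ncard_coe_finset]
  congr 1
  ext w
  simp

/-- Closed neighbourhoods of `GA` as bit masks. -/
def NA : List ℕ :=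
  [40993, 1666, 36900, 2632, 24656, 165, 216, 226, 39168, 2570, 21506, 2824, 5380, 24593, 25616, 33029]

/-- A cubic graph on 16 vertices. -/
def GA : SimpleGraph (Fin 16) := ofMasks NA

/-- The data of `GA`. -/
def dataA : List (ℕ × ℕ) :=
  [(1, 40993), (2, 1666), (4, 36900), (8, 2632), (16, 24656), (32, 165), (64, 216), (128, 226), (256, 39168), (512, 2570), (1024, 21506), (2048, 2824), (4096, 5380), (8192, 24593), (16384, 25616), (32768, 33029)]

lemma goodA : Good GA NA := by
  unfold Good GA
  decide +kernel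

lemma dataA_eq : data NA (List.finRange 16) = dataA := by decide +kernel

lemma runA : run 65535 5 7 7 5 dataA [] 0 0 true 0 = true := by
  decide +kernel

lemma allA : Data GA 4 5 5 7 7 7 := by
  have hb := bounds (G := GA) (N := NA) (full := 2 ^ 16 - 1) (g := 5) (Ga := 7)
    (b := 7) (i := 5) goodA (full_lt 16)
    (by rw [dataA_eq]; exact runA)
  obtain ⟨h1, h2, h3, h4⟩ := hb
  refine ⟨?_, ?_, h1, ?_, h4, ?_, h3, ?_, h2, ?_, ?_⟩
  · refine ⟨{0, 5, 8, 12}, ?_, by decide⟩
    unfold GA
    exact maximal_irr (by decide +kernel) (by decide +kernel)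
  · refine ⟨{7, 11, 12, 14, 15}, ?_, by decide⟩
    unfold GA
    decide +kernel
  · refine ⟨{7, 11, 12, 14, 15}, ?_, by decide⟩
    unfold GA
    exact maximal_ind (by decide +kernel) (by decide +kernel)
  · refine ⟨{1, 5, 6, 11, 12, 14, 15}, ?_, by decide⟩
    unfold GA
    decide +kernel
  · refine ⟨{1, 5, 6, 11, 12, 14, 15}, ?_, by decide⟩
    unfold GA
    exact minimal_dom (by decide +kernel) (by decide +kernel)
  · refine ⟨{1, 5, 6, 11, 12, 14, 15}, ?_, by decide⟩
    unfold GA
    decide +kernel
  · unfold GA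
    exact cubic_of NA (by decide +kernel)

/-- Closed neighbourhoods of `GD` as bit masks. -/
def ND : List ℕ :=
  [1409, 16426, 196868, 586, 77840, 147490, 1608, 17537, 131333, 33352, 1217, 47104, 38928, 75792, 16546, 39424, 73748, 131364]

/-- A cubic graph on 18 vertices. -/
def GD : SimpleGraph (Fin 18) := ofMasks ND

/-- The data of `GD`. -/
def dataD : List (ℕ × ℕ) :=
  [(1, 1409), (2, 16426), (4, 196868), (8, 586), (16, 77840), (32, 147490), (64, 1608), (128, 17537), (256, 131333), (512, 33352), (1024, 1217), (2048, 47104), (4096, 38928), (8192, 75792), (16384, 16546), (32768, 39424), (65536, 73748), (131072, 131364)]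

lemma goodD : Good GD ND := by
  unfold Good GD
  decide +kernel

lemma dataD_eq : data ND (List.finRange 18) = dataD := by decide +kernel

lemma runD : run 262143 5 6 6 5 dataD [] 0 0 true 0 = true := by
  decide +kernel

lemma allD : Data GD 5 5 5 6 6 7 := by
  have hb := bounds (G := GD) (N := ND) (full := 2 ^ 18 - 1) (g := 5) (Ga := 6)
    (b := 6) (i := 5) goodD (full_lt 18)
    (by rw [dataD_eq]; exact runD)
  obtain ⟨h1, h2, h3, h4⟩ := hb
  refine ⟨?_, ?_, h1, ?_, h4, ?_, h3, ?_, h2, ?_, ?_⟩
  · refine ⟨{2, 3, 4, 6, 15}, ?_, by decide⟩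
    unfold GD
    exact maximal_irr (by decide +kernel) (by decide +kernel)
  · refine ⟨{6, 8, 14, 15, 16}, ?_, by decide⟩
    unfold GD
    decide +kernel
  · refine ⟨{6, 8, 14, 15, 16}, ?_, by decide⟩
    unfold GD
    exact maximal_ind (by decide +kernel) (by decide +kernel)
  · refine ⟨{9, 10, 12, 14, 16, 17}, ?_, by decide⟩
    unfold GD
    decide +kernel
  · refine ⟨{9, 10, 14, 15, 16, 17}, ?_, by decide⟩
    unfold GD
    exact minimal_dom (by decide +kernel) (by decide +kernel)
  · refine ⟨{4, 5, 6, 9, 13, 14, 16}, ?_, by decide⟩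
    unfold GD
    decide +kernel
  · unfold GD
    exact cubic_of ND (by decide +kernel)

/-- Closed neighbourhoods of `GK` as bit masks. -/
def NK : List ℕ :=
  [57, 58, 60, 15, 23, 39]

/-- A cubic graph on 6 vertices. -/
def GK : SimpleGraph (Fin 6) := ofMasks NK

/-- The data of `GK`. -/
def dataK : List (ℕ × ℕ) :=
  [(1, 57), (2, 58), (4, 60), (8, 15), (16, 23), (32, 39)]

lemma goodK : Good GK NK := by
  unfold Good GK
  decide +kernel

lemma dataK_eq : data NK (List.finRange 6) = dataK := by decide +kernel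

lemma runK : run 63 2 3 3 3 dataK [] 0 0 true 0 = true := by
  decide +kernel

lemma allK : Data GK 2 2 3 3 3 3 := by
  have hb := bounds (G := GK) (N := NK) (full := 2 ^ 6 - 1) (g := 2) (Ga := 3)
    (b := 3) (i := 3) goodK (full_lt 6)
    (by rw [dataK_eq]; exact runK)
  obtain ⟨h1, h2, h3, h4⟩ := hb
  refine ⟨?_, ?_, h1, ?_, h4, ?_, h3, ?_, h2, ?_, ?_⟩
  · refine ⟨{0, 3}, ?_, by decide⟩
    unfold GK
    exact maximal_irr (by decide +kernel) (by decide +kernel)
  · refine ⟨{2, 5}, ?_, by decide⟩
    unfold GK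
    decide +kernel
  · refine ⟨{3, 4, 5}, ?_, by decide⟩
    unfold GK
    exact maximal_ind (by decide +kernel) (by decide +kernel)
  · refine ⟨{3, 4, 5}, ?_, by decide⟩
    unfold GK
    decide +kernel
  · refine ⟨{3, 4, 5}, ?_, by decide⟩
    unfold GK
    exact minimal_dom (by decide +kernel) (by decide +kernel)
  · refine ⟨{3, 4, 5}, ?_, by decide⟩
    unfold GK
    decide +kernel
  · unfold GK
    exact cubic_of NK (by decide +kernel)

/-- Closed neighbourhoods of `GP` as bit masks. -/
def NP : List ℕ :=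
  [15, 23, 39, 57, 58, 60]

/-- A cubic graph on 6 vertices. -/
def GP : SimpleGraph (Fin 6) := ofMasks NP

/-- The data of `GP`. -/
def dataP : List (ℕ × ℕ) :=
  [(1, 15), (2, 23), (4, 39), (8, 57), (16, 58), (32, 60)]

lemma goodP : Good GP NP := by
  unfold Good GP
  decide +kernel

lemma dataP_eq : data NP (List.finRange 6) = dataP := by decide +kernel

lemma runP : run 63 2 3 2 2 dataP [] 0 0 true 0 = true := by
  decide +kernel

lemma allP : Data GP 2 2 2 2 3 3 := by
  have hb := bounds (G := GP) (N := NP) (full := 2 ^ 6 - 1) (g := 2) (Ga := 3)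
    (b := 2) (i := 2) goodP (full_lt 6)
    (by rw [dataP_eq]; exact runP)
  obtain ⟨h1, h2, h3, h4⟩ := hb
  refine ⟨?_, ?_, h1, ?_, h4, ?_, h3, ?_, h2, ?_, ?_⟩
  · refine ⟨{0, 3}, ?_, by decide⟩
    unfold GP
    exact maximal_irr (by decide +kernel) (by decide +kernel)
  · refine ⟨{2, 5}, ?_, by decide⟩
    unfold GP
    decide +kernel
  · refine ⟨{2, 4}, ?_, by decide⟩
    unfold GP
    exact maximal_ind (by decide +kernel) (by decide +kernel)
  · refine ⟨{2, 4}, ?_, by decide⟩
    unfold GP
    decide +kernel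
  · refine ⟨{3, 4, 5}, ?_, by decide⟩
    unfold GP
    exact minimal_dom (by decide +kernel) (by decide +kernel)
  · refine ⟨{3, 4, 5}, ?_, by decide⟩
    unfold GP
    decide +kernel
  · unfold GP
    exact cubic_of NP (by decide +kernel)

/-- **Theorem.** There is a cubic graph with `ir < γ < i < β₀ < Γ < IR`. -/
theorem result : ∃ (V : Type) (_ : Fintype V) (G : SimpleGraph V), IsCubic G ∧
    ir G < gamma G ∧ gamma G < iNum G ∧ iNum G < beta0 G ∧ beta0 G < Gamma G ∧ Gamma G < IR G := by
  have h := ((allA.add allD).add (allK.add allP))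
  refine ⟨_, inferInstance, union (union GA GD) (union GK GP), h.cubic, ?_, ?_, ?_, ?_, ?_⟩
  · exact (Nat.lt_of_le_of_lt (minSize_le h.r_le) (by norm_num : 4 + 5 + (2 + 2) < 5 + 5 + (2 + 2))).trans_le
      (le_minSize h.g_ge h.g_le)
  · exact (Nat.lt_of_le_of_lt (minSize_le h.g_le) (by norm_num : 5 + 5 + (2 + 2) < 5 + 5 + (3 + 2))).trans_le
      (le_minSize h.i_ge h.i_le)
  · exact (Nat.lt_of_le_of_lt (minSize_le h.i_le) (by norm_num : 5 + 5 + (3 + 2) < 7 + 6 + (3 + 2))).trans_le
      (le_maxSize h.b_ge)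
  · exact (Nat.lt_of_le_of_lt (maxSize_le h.b_le h.b_ge) (by norm_num : 7 + 6 + (3 + 2) < 7 + 6 + (3 + 3))).trans_le
      (le_maxSize h.G_ge)
  · exact (Nat.lt_of_le_of_lt (maxSize_le h.G_le h.G_ge) (by norm_num : 7 + 6 + (3 + 3) < 7 + 7 + (3 + 3))).trans_le
      (le_maxSize h.I_ge)

end Pool.Agent.Results.MP_93f3b8_co.StrictChain
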